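import Mathlib
import Pool.Agent.Q72.HN.Final

/-!
# Hardy and Bergman numbers are not determined near infinity (`MP_1ae38f_an`, Q1 and Q2)

`Q72.HN.hardyNum`, `bergNum`, `bergWNum` (file `Pool/Agent/Q72/HN/Defs.lean`) are the Hardy number
`h(D)`, the Bergman number `b(D)` and the weighted Bergman number `b_α(D)` of the problem file,
with values in `[0, ∞]`.

There are domains `D₁, D₂` with the same points in `{|z| > 6}` such that
`h(D₁) = b(D₁) = b_α(D₁) = ∞` for all `α > -1`, while `h(D₂) ≤ 8`, `b(D₂) ≤ 4` and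
`b_α(D₂) ≤ 4 (α + 2)` for all `α > -1`.  So the answer to Q1 and to both parts of Q2
(part (b) for every `α > -1`) is negative.

The domains are a square with infinitely many long corridors, each leading to a big bounded room;
in `D₁` the corridors are entered through tiny gates.
-/

set_option autoImplicit false

open Metric Set

namespace Pool.Agent.Results.MP_1ae38f_an.NumbersNotLocal

open Q72.HN

theorem result : ∃ D₁ D₂ : Set ℂ, IsOpen D₁ ∧ IsConnected D₁ ∧ IsOpen D₂ ∧ IsConnected D₂ ∧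
    (∃ R : ℝ, 0 < R ∧ D₁ ∩ {z | R < ‖z‖} = D₂ ∩ {z | R < ‖z‖}) ∧
    -- Q1
    hardyNum D₁ ≠ hardyNum D₂ ∧
    -- Q2 (a)
    bergNum D₁ ≠ bergNum D₂ ∧
    -- Q2 (b), for every `α`
    (∀ α : ℝ, -1 < α → bergWNum α D₁ ≠ bergWNum α D₂) ∧
    -- the values
    hardyNum D₁ = ⊤ ∧ bergNum D₁ = ⊤ ∧ (∀ α : ℝ, -1 < α → bergWNum α D₁ = ⊤) ∧
    hardyNum D₂ ≤ 8 ∧ bergNum D₂ ≤ 4 ∧
    (∀ α : ℝ, -1 < α → bergWNum α D₂ ≤ ENNReal.ofReal (4 * (α + 2))) := by
  obtain ⟨D₁, D₂, h1, h2, h3, h4, h5, h6, h7, h8, h9, h10, h11⟩ := main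
  refine ⟨D₁, D₂, h1, h2, h3, h4, ⟨6, by norm_num, h5⟩, ?_, ?_, ?_, h6, h7, h8, h9, h10, h11⟩
  · rw [h6]
    exact (lt_of_le_of_lt h9 (by norm_num)).ne'
  · rw [h7]
    exact (lt_of_le_of_lt h10 (by norm_num)).ne'
  · intro α hα
    rw [h8 α hα]
    exact (lt_of_le_of_lt (h11 α hα) ENNReal.ofReal_lt_top).ne'

end Pool.Agent.Results.MP_1ae38f_an.NumbersNotLocal
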